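import Mathlib

/-!
Well ordered sets of regular uncountable type, small sets; the bounding number.
-/

set_option autoImplicit false

namespace Pool.Agent.H62.CB

open Set Filter Cardinal

/-- A well ordered set whose cardinality is regular and uncountable and all of whose proper initial
segments have smaller cardinality. -/
class BigOrd (W : Type) [LinearOrder W] : Prop where
  wf : WellFoundedLT W
  sIio : ∀ w : W, #(Set.Iio w) < #W
  reg : (#W).IsRegular
  unc : ℵ₀ < #W

attribute [instance] BigOrd.wf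

/-- sets of cardinality less than `#W` -/
def Sm (W : Type) {α : Type} (A : Set α) : Prop := #A < #W

section
variable {W : Type} [LinearOrder W] [BigOrd W] {α β : Type}

theorem Sm.mono {A B : Set α} (hB : Sm W B) (h : A ⊆ B) : Sm W A :=
  (Cardinal.mk_le_mk_of_subset h).trans_lt hB

theorem sm_countable {A : Set α} (h : A.Countable) : Sm W A :=
  ((Cardinal.le_aleph0_iff_set_countable).2 h).trans_lt BigOrd.unc

theorem Sm.image {A : Set α} (hA : Sm W A) (f : α → β) : Sm W (f '' A) :=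
  Cardinal.mk_image_le.trans_lt hA

theorem sm_iUnion {ι : Type} [Countable ι] {f : ι → Set α} (h : ∀ i, Sm W (f i)) :
    Sm W (⋃ i, f i) := by
  unfold Sm
  rw [Cardinal.card_iUnion_lt_iff_forall_of_isRegular BigOrd.reg
    ((Cardinal.mk_le_aleph0_iff.2 inferInstance).trans_lt BigOrd.unc)]
  exact h

theorem sm_biUnion {s : Set β} (hs : Sm W s) {t : β → Set α} (h : ∀ b ∈ s, Sm W (t b)) :
    Sm W (⋃ b ∈ s, t b) := by
  unfold Sm
  rw [Cardinal.card_biUnion_lt_iff_forall_of_isRegular BigOrd.reg hs]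
  exact h

theorem Sm.union {A B : Set α} (hA : Sm W A) (hB : Sm W B) : Sm W (A ∪ B) := by
  rw [Set.union_eq_iUnion]
  exact sm_iUnion (fun b => by cases b <;> assumption)

theorem not_sm_univ : ¬ Sm W (Set.univ : Set W) := by
  unfold Sm
  rw [Cardinal.mk_univ]
  exact lt_irrefl _

theorem sIic (w : W) : Sm W (Set.Iic w) := by
  have : Set.Iic w = Set.Iio w ∪ {w} := by
    ext x; simp [le_iff_lt_or_eq]
  rw [this]
  exact Sm.union (BigOrd.sIio w) (sm_countable (Set.countable_singleton w))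

theorem bdd {C : Set W} (hC : Sm W C) : ∃ w : W, ∀ c ∈ C, c < w := by
  by_contra h
  push Not at h
  apply not_sm_univ (W := W)
  have : (Set.univ : Set W) ⊆ ⋃ c ∈ C, Set.Iic c := by
    intro w _
    obtain ⟨c, hc, hwc⟩ := h w
    simp only [Set.mem_iUnion]
    exact ⟨c, hc, hwc⟩
  exact (sm_biUnion hC (fun c _ => sIic c)).mono this

theorem exists_gt {C : Set W} (hC : ¬ Sm W C) (w : W) : ∃ c ∈ C, w < c := by
  by_contra h
  push Not at h
  exact hC ((sIic w).mono (fun c hc => h c hc))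

theorem pig [Countable β] {C : Set α} (hC : ¬ Sm W C) (g : α → β) :
    ∃ b : β, ¬ Sm W {c | c ∈ C ∧ g c = b} := by
  by_contra h
  push Not at h
  apply hC
  have : C ⊆ ⋃ b : β, {c | c ∈ C ∧ g c = b} := by
    intro c hc
    rw [Set.mem_iUnion]
    exact ⟨g c, hc, rfl⟩
  exact (sm_iUnion h).mono this

/-- The tuple version of the Delta system lemma. -/
theorem delta {I V : Type} (s : Finset I) {C : Set α} (hC : ¬ Sm W C) (t : α → I → V) :
    ∃ D ⊆ C, ¬ Sm W D ∧ ∀ i ∈ s, (∃ v, ∀ x ∈ D, t x i = v) ∨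
      (∀ v, Sm W {x | x ∈ D ∧ t x i = v}) := by
  classical
  induction s using Finset.induction_on with
  | empty => exact ⟨C, subset_rfl, hC, by simp⟩
  | insert i s _ ih =>
    obtain ⟨D, hDC, hD, hs⟩ := ih
    by_cases h : ∀ v, Sm W {x | x ∈ D ∧ t x i = v}
    · refine ⟨D, hDC, hD, ?_⟩
      intro j hj
      rcases Finset.mem_insert.1 hj with rfl | hj
      · exact Or.inr h
      · exact hs j hj
    · push Not at h
      obtain ⟨v, hv⟩ := h
      refine ⟨{x | x ∈ D ∧ t x i = v}, ?_, hv, ?_⟩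
      · intro x hx
        exact hDC hx.1
      intro j hj
      rcases Finset.mem_insert.1 hj with rfl | hj
      · exact Or.inl ⟨v, fun x hx => hx.2⟩
      · rcases hs j hj with ⟨u, hu⟩ | hu
        · exact Or.inl ⟨u, fun x hx => hu x hx.1⟩
        · refine Or.inr (fun u => (hu u).mono ?_)
          intro x hx
          exact ⟨hx.1.1, hx.2⟩

/-- Definition by well founded recursion. -/
theorem wfrec {Y : Type*} [Nonempty Y] (P : W → (W → Y) → Y → Prop)
    (hcongr : ∀ w g g' y, (∀ v, v < w → g v = g' v) → P w g y → P w g' y)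
    (hex : ∀ w g, ∃ y, P w g y) : ∃ f : W → Y, ∀ w, P w f (f w) := by
  classical
  let y0 : Y := Classical.arbitrary Y
  let ext : (w : W) → ((v : W) → v < w → Y) → W → Y :=
    fun w g v => if h : v < w then g v h else y0
  let f : W → Y := IsWellFounded.fix (α := W) (· < ·)
    (fun w g => Classical.choose (hex w (ext w g)))
  refine ⟨f, fun w => ?_⟩
  have hf : f w = Classical.choose (hex w (ext w (fun v _ => f v))) :=
    IsWellFounded.fix_eq (α := W) (· < ·) _ w
  have h1 := Classical.choose_spec (hex w (ext w (fun v _ => f v)))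
  rw [← hf] at h1
  refine hcongr w _ _ _ ?_ h1
  intro v hv
  simp [ext, hv]

end

/-! ### the bounding number -/

/-- a family of functions which is not eventually dominated by a single function -/
def Unb {ι : Type} (g : ι → ℕ → ℕ) : Prop :=
  ∀ f : ℕ → ℕ, ∃ i, ¬ ∀ᶠ n in atTop, g i n ≤ f n

/-- The bounding number `𝔟`: the least cardinality of an unbounded family of functions. -/
noncomputable def bb : Cardinal.{0} :=
  sInf {κ | ∃ (ι : Type) (g : ι → ℕ → ℕ), #ι = κ ∧ Unb g}

theorem unb_all : Unb (fun g : ℕ → ℕ => g) := by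
  intro f
  refine ⟨fun n => f n + 1, fun h => ?_⟩
  obtain ⟨n, hn⟩ := h.exists
  have hn' : f n + 1 ≤ f n := hn
  omega

theorem bb_mem : ∃ (ι : Type) (g : ι → ℕ → ℕ), #ι = bb ∧ Unb g := by
  have : bb ∈ {κ | ∃ (ι : Type) (g : ι → ℕ → ℕ), #ι = κ ∧ Unb g} :=
    csInf_mem ⟨#(ℕ → ℕ), ℕ → ℕ, fun g => g, rfl, unb_all⟩
  exact this

theorem bb_le_continuum : bb ≤ Cardinal.continuum := by
  have h : bb ≤ #(ℕ → ℕ) := csInf_le' ⟨ℕ → ℕ, fun g => g, rfl, unb_all⟩
  simpa using h

/-- families of cardinality less than `𝔟` are bounded -/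
theorem bounded_of_lt {ι : Type} (hι : #ι < bb) (g : ι → ℕ → ℕ) :
    ∃ f : ℕ → ℕ, ∀ i, ∀ᶠ n in atTop, g i n ≤ f n := by
  by_contra h
  refine absurd hι (not_lt.2 (csInf_le' ⟨ι, g, rfl, fun f => ?_⟩))
  by_contra h2
  exact h ⟨f, fun i => by_contra (fun hi => h2 ⟨i, hi⟩)⟩

/-- countable families are bounded -/
theorem bounded_countable {ι : Type} [Countable ι] (g : ι → ℕ → ℕ) :
    ∃ f : ℕ → ℕ, ∀ i, ∀ᶠ n in atTop, g i n ≤ f n := by
  by_cases hι : Nonempty ι
  · obtain ⟨e, he⟩ := exists_surjective_nat ι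
    refine ⟨fun n => ∑ j ∈ Finset.range (n + 1), g (e j) n, fun i => ?_⟩
    obtain ⟨j, rfl⟩ := he i
    filter_upwards [eventually_ge_atTop j] with n hn
    exact Finset.single_le_sum (f := fun j => g (e j) n) (fun _ _ => Nat.zero_le _)
      (Finset.mem_range.2 (by omega))
  · exact ⟨fun _ => 0, fun i => (hι ⟨i⟩).elim⟩

theorem aleph0_lt_bb : ℵ₀ < bb := by
  by_contra h
  push Not at h
  obtain ⟨ι, g, hι, hg⟩ := bb_mem
  rw [← hι, Cardinal.mk_le_aleph0_iff] at h
  obtain ⟨f, hf⟩ := bounded_countable g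
  obtain ⟨i, hi⟩ := hg f
  exact hi (hf i)

/-- the index set of type `𝔟` -/
abbrev WB : Type := bb.ord.ToType

theorem mk_WB : #WB = bb := by simp

theorem mk_Iio_WB (w : WB) : #(Set.Iio w) < bb := by
  have h : #(Set.Iio w) < #WB := Cardinal.mk_Iio_lt w (by simp)
  rwa [mk_WB] at h

theorem exists_unb_WB : ∃ g : WB → ℕ → ℕ, Unb g := by
  obtain ⟨ι, g, hι, hg⟩ := bb_mem
  have h : #ι = #WB := by rw [hι, mk_WB]
  obtain ⟨e⟩ := Cardinal.eq.1 h
  refine ⟨fun w => g (e.symm w), fun f => ?_⟩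
  obtain ⟨i, hi⟩ := hg f
  refine ⟨e i, ?_⟩
  show ¬ ∀ᶠ n in atTop, g (e.symm (e i)) n ≤ f n
  rw [e.symm_apply_apply]
  exact hi

theorem bb_regular : bb.IsRegular := by
  refine ⟨aleph0_lt_bb.le, ?_⟩
  rw [← Ordinal.cof_toType, Order.le_cof_iff]
  intro s hs
  by_contra hlt
  push Not at hlt
  obtain ⟨g, hg⟩ := exists_unb_WB
  have h1 : ∀ w : WB, ∃ f : ℕ → ℕ, ∀ v, v ≤ w → ∀ᶠ n in atTop, g v n ≤ f n := by
    intro w
    obtain ⟨f, hf⟩ := bounded_of_lt (mk_Iio_WB w) (fun v => g v)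
    refine ⟨fun n => f n + g w n, fun v hv => ?_⟩
    rcases hv.lt_or_eq with h | rfl
    · filter_upwards [hf ⟨v, h⟩] with n hn
      omega
    · exact Eventually.of_forall (fun n => Nat.le_add_left _ _)
  choose F hF using h1
  obtain ⟨f, hf⟩ := bounded_of_lt hlt (fun w : s => F w)
  obtain ⟨v, hv⟩ := hg f
  obtain ⟨w, hw, hvw⟩ := hs v
  apply hv
  filter_upwards [hF w v hvw, hf ⟨w, hw⟩] with n h2 h3
  exact h2.trans h3

noncomputable instance : BigOrd WB where
  wf := inferInstance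
  sIio w := by rw [mk_WB]; exact mk_Iio_WB w
  reg := by rw [mk_WB]; exact bb_regular
  unc := by rw [mk_WB]; exact aleph0_lt_bb

end Pool.Agent.H62.CB
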