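import Pool.Agent.H62.CB.Space

/-!
The topology of the space and the function space `C_p(X)`.
-/

set_option autoImplicit false

namespace Pool.Agent.H62.CB

open Set Filter Topology Cardinal

/-- Every set of continuous real functions on `X` has a subset of cardinality less than `κ` which is
dense in it in the topology of pointwise convergence; for `κ = ℵ₁`: `C_p(X)` is hereditarily
separable. -/
def HD (κ : Cardinal.{0}) (X : Type) [TopologicalSpace X] : Prop :=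
  ∀ S : Set (X → ℝ), (∀ f ∈ S, Continuous f) → ∃ D ⊆ S, #D < κ ∧ S ⊆ closure D

/-- Every family of open subsets of `ℝ^X` which covers a set `S` of continuous functions has a
subfamily of cardinality less than `κ` which covers `S`; for `κ = ℵ₁`: `C_p(X)` is hereditarily
Lindelöf. -/
def HL (κ : Cardinal.{0}) (X : Type) [TopologicalSpace X] : Prop :=
  ∀ S : Set (X → ℝ), (∀ f ∈ S, Continuous f) → ∀ 𝒰 : Set (Set (X → ℝ)), (∀ O ∈ 𝒰, IsOpen O) →
    S ⊆ ⋃₀ 𝒰 → ∃ 𝒱 ⊆ 𝒰, #𝒱 < κ ∧ S ⊆ ⋃₀ 𝒱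

/-- `S` has a subset of cardinality less than `κ` from which every member of `S` is the pointwise
limit of a sequence; for `κ = ℵ₁`: `S` is sequentially separable. -/
def SeqD (κ : Cardinal.{0}) {X : Type} (S : Set (X → ℝ)) : Prop :=
  ∃ D ⊆ S, #D < κ ∧ ∀ f ∈ S, ∃ u : ℕ → X → ℝ, (∀ n, u n ∈ D) ∧ Tendsto u atTop (𝓝 f)

/-- The space. -/
def Sq {W : Type} (_x : W → ℕ → ℕ) : Type := W × W × ℕ

/-- The embedding of the space in a product of discrete spaces. -/
noncomputable def Ph {W : Type} (x : W → ℕ → ℕ) :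
    Sq x → (W → Bool) × (ℕ → ℕ) × (ℕ → ℕ) × ℕ :=
  fun p => (fun α => ph x α p, x p.1, x p.2.1, p.2.2)

noncomputable instance {W : Type} (x : W → ℕ → ℕ) : TopologicalSpace (Sq x) :=
  TopologicalSpace.induced (Ph x) inferInstance

theorem nbhd_of_notMem_closure {X : Type} {f : X → ℝ} {C : Set (X → ℝ)}
    (h : f ∉ closure C) : ∃ I : Finset X, ∃ q : ℕ, ∀ g ∈ C, ∃ x ∈ I, 1 / ((q : ℝ) + 1) ≤ |g x - f x| := by
  classical
  have hopen : IsOpen (closure C)ᶜ := isClosed_closure.isOpen_compl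
  obtain ⟨I, u, hu, hsub⟩ := isOpen_pi_iff.1 hopen f h
  have hq : ∀ x : X, ∃ q : ℕ, x ∈ I → ∀ y : ℝ, |y - f x| < 1 / ((q : ℝ) + 1) → y ∈ u x := by
    intro x
    by_cases hx : x ∈ I
    · obtain ⟨ho, hm⟩ := hu x hx
      obtain ⟨ε, hε, hball⟩ := Metric.isOpen_iff.1 ho (f x) hm
      obtain ⟨q, hq⟩ := exists_nat_one_div_lt hε
      refine ⟨q, fun _ y hy => hball ?_⟩
      rw [Metric.mem_ball, Real.dist_eq]
      exact hy.trans hq
    · exact ⟨0, fun h => (hx h).elim⟩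
  choose q hq using hq
  refine ⟨I, I.sup q, fun g hg => ?_⟩
  by_contra hcon
  push Not at hcon
  have : g ∈ (closure C)ᶜ := by
    apply hsub
    intro x hx
    refine hq x hx (g x) ((hcon x hx).trans_le ?_)
    have h1 : q x ≤ I.sup q := Finset.le_sup hx
    have h2 : (q x : ℝ) ≤ ((I.sup q : ℕ) : ℝ) := by exact_mod_cast h1
    apply one_div_le_one_div_of_le
    · positivity
    · linarith
  exact this (subset_closure hg)

section
variable {W : Type} {x : W → ℕ → ℕ}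

theorem ph_embedding (hx : Function.Injective x) : Topology.IsEmbedding (Ph x) where
  toIsInducing := ⟨rfl⟩
  injective := by
    rintro ⟨b, ξ, k⟩ ⟨b', ξ', k'⟩ h
    have h1 : x b = x b' := congrArg (fun q => q.2.1) h
    have h2 : x ξ = x ξ' := congrArg (fun q => q.2.2.1) h
    have h3 : k = k' := congrArg (fun q => q.2.2.2) h
    rw [hx h1, hx h2, h3]

theorem sq_t35 (hx : Function.Injective x) : T35Space (Sq x) :=
  (ph_embedding hx).t35Space

theorem nbhd_cont (g : Sq x → ℝ) (hg : Continuous g) (p : Sq x) (δ : ℝ) (hδ : 0 < δ) :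
    ∃ T : Finset W, ∃ L : ℕ, ∀ p' : Sq x, Nb x T L p p' → |g p' - g p| < δ := by
  classical
  have hV : IsOpen {y : Sq x | |g y - g p| < δ} := by
    have : {y : Sq x | |g y - g p| < δ} = g ⁻¹' (Metric.ball (g p) δ) := by
      ext y
      simp only [Set.mem_ofPred_eq, Set.mem_preimage, Metric.mem_ball, Real.dist_eq]
    rw [this]
    exact Metric.isOpen_ball.preimage hg
  obtain ⟨O, hO, hOV⟩ := isOpen_induced_iff.1 hV
  have hpO : Ph x p ∈ O := by
    have : p ∈ Ph x ⁻¹' O := by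
      rw [hOV]
      change |g p - g p| < δ
      rw [sub_self, abs_zero]
      exact hδ
    exact this
  obtain ⟨u, v, hu, hv, hpu, hpv, huv⟩ := isOpen_prod_iff.1 hO (fun α => ph x α p)
    (x p.1, x p.2.1, p.2.2) hpO
  obtain ⟨v1, v2, hv1, hv2, hpv1, hpv2, hvv⟩ := isOpen_prod_iff.1 hv (x p.1) (x p.2.1, p.2.2) hpv
  obtain ⟨v3, v4, hv3, hv4, hpv3, hpv4, hvv2⟩ := isOpen_prod_iff.1 hv2 (x p.2.1) p.2.2 hpv2
  obtain ⟨T, u', hu', hsu⟩ := isOpen_pi_iff.1 hu _ hpu
  obtain ⟨I, v', hv', hsv⟩ := isOpen_pi_iff.1 hv1 _ hpv1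
  obtain ⟨J, w', hw', hsw⟩ := isOpen_pi_iff.1 hv3 _ hpv3
  refine ⟨T, (I.sup id + 1) + (J.sup id + 1), fun p' hp' => ?_⟩
  obtain ⟨h1, h2, h3, h4⟩ := hp'
  have e1 : (fun α => ph x α p') ∈ u := by
    apply hsu
    intro q hq
    have : ph x q p' = ph x q p := h1 q hq
    simp only
    rw [this]
    exact (hu' q hq).2
  have e2 : x p'.1 ∈ v1 := by
    apply hsv
    intro l hl
    have : l ≤ I.sup id := Finset.le_sup (f := id) hl
    rw [h2 l (by omega)]
    exact (hv' l hl).2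
  have e3 : x p'.2.1 ∈ v3 := by
    apply hsw
    intro l hl
    have : l ≤ J.sup id := Finset.le_sup (f := id) hl
    rw [h3 l (by omega)]
    exact (hw' l hl).2
  have e4 : p'.2.2 ∈ v4 := by rw [h4]; exact hpv4
  have h5 : p' ∈ Ph x ⁻¹' O := huv ⟨e1, hvv ⟨e2, hvv2 ⟨e3, e4⟩⟩⟩
  rw [hOV] at h5
  exact h5

end

section
variable {W : Type} [LinearOrder W] [BigOrd W] {x : W → ℕ → ℕ}

/-- Common part of the two theorems on `C_p(X)`: a sequence of continuous functions of type `W`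
and finite sets of points contain two indices `v < w` with `f_v`, `f_w` close on the finite set of
`w`, and two such indices with `f_v`, `f_w` close on the finite set of `v`. -/
theorem close (hx : Scale x) (f : W → Sq x → ℝ) (hf : ∀ w, Continuous (f w))
    (I : W → Finset (Sq x)) (q : W → ℕ) :
    (∃ v w, v < w ∧ ∀ z ∈ I w, |f v z - f w z| < 1 / ((q w : ℝ) + 1)) ∧
    (∃ v w, v < w ∧ ∀ z ∈ I v, |f w z - f v z| < 1 / ((q v : ℝ) + 1)) := by
  classical
  have hU : ¬ Sm W (Set.univ : Set W) := not_sm_univ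
  obtain ⟨⟨n, q'⟩, hX1⟩ := pig hU (fun w => ((I w).card, q w))
  set X1 : Set W := {w | w ∈ Set.univ ∧ ((I w).card, q w) = (n, q')} with hX1def
  have hX1b : ∀ w ∈ X1, (I w).card = n := fun w hw => congrArg Prod.fst hw.2
  have hX1c : ∀ w ∈ X1, q w = q' := fun w hw => congrArg Prod.snd hw.2
  have ha : ∀ w : W, ∃ a : Fin n → W × W × ℕ, w ∈ X1 → ∀ z ∈ I w, ∃ i, a i = z := by
    intro w
    by_cases hw : w ∈ X1
    · have hcard := hX1b w hw
      refine ⟨fun i => (((I w).equivFinOfCardEq hcard).symm i).1, fun _ z hz => ?_⟩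
      refine ⟨(I w).equivFinOfCardEq hcard ⟨z, hz⟩, ?_⟩
      exact congrArg Subtype.val (((I w).equivFinOfCardEq hcard).symm_apply_apply ⟨z, hz⟩)
    · exact ⟨fun _ => (w, w, 0), fun h => (hw h).elim⟩
  choose a ha using ha
  set δ : ℝ := 1 / (2 * ((q' : ℝ) + 1)) with hδ
  have hδpos : 0 < δ := by rw [hδ]; positivity
  have h5 : 2 * δ = 1 / ((q' : ℝ) + 1) := by
    rw [hδ]
    field_simp
  obtain ⟨E, hX2⟩ := pig hX1 (fun w => (fun i : Fin n => ⌊f w (a w i) / δ⌋))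
  set X2 : Set W := {w | w ∈ X1 ∧ (fun i : Fin n => ⌊f w (a w i) / δ⌋) = E} with hX2def
  have hcl : ∀ v ∈ X2, ∀ w ∈ X2, ∀ i, |f v (a v i) - f w (a w i)| < δ := by
    intro v hv w hw i
    have hfl : ⌊f v (a v i) / δ⌋ = ⌊f w (a w i) / δ⌋ := by
      have e1 := congrFun hv.2 i
      have e2 := congrFun hw.2 i
      exact e1.trans e2.symm
    have h2 : |f v (a v i) / δ - f w (a w i) / δ| < 1 := Int.abs_sub_lt_one_of_floor_eq_floor hfl
    rw [← sub_div, abs_div, abs_of_pos hδpos, div_lt_one hδpos] at h2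
    exact h2
  obtain ⟨⟨v, hv, w, hw, hvw, hmem⟩, ⟨v', hv', w', hw', hvw', hmem'⟩⟩ := hlhs hx n X2 hX2 a
    (fun w => {z : Fin n → W × W × ℕ | ∀ i, |f w (z i) - f w (a w i)| < δ})
    (by
      intro w _
      have hnb := fun i : Fin n => nbhd_cont (f w) (hf w) (a w i) δ hδpos
      choose T L hTL using hnb
      refine ⟨Finset.univ.biUnion T, Finset.univ.sup L, fun b hb i => ?_⟩
      obtain ⟨h1, h2, h3, h4⟩ := hb i
      have hL : L i ≤ Finset.univ.sup L := Finset.le_sup (Finset.mem_univ i)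
      refine hTL i (b i) ⟨fun r hr => h1 r ?_, fun l hl => h2 l (hl.trans_le hL),
        fun l hl => h3 l (hl.trans_le hL), h4⟩
      exact Finset.mem_biUnion.2 ⟨i, Finset.mem_univ i, hr⟩)
  constructor
  · -- `a w ∈ U v`
    refine ⟨v, w, hvw, fun z hz => ?_⟩
    obtain ⟨i, rfl⟩ := ha w hw.1 z hz
    rw [hX1c w hw.1, ← h5]
    have h1 : |f v (a w i) - f v (a v i)| < δ := hmem i
    have h3 := hcl v hv w hw i
    calc |f v (a w i) - f w (a w i)|
        = |(f v (a w i) - f v (a v i)) + (f v (a v i) - f w (a w i))| := by congr 1; ring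
      _ ≤ |f v (a w i) - f v (a v i)| + |f v (a v i) - f w (a w i)| := abs_add_le _ _
      _ < 2 * δ := by linarith
  · -- `a v' ∈ U w'`
    refine ⟨v', w', hvw', fun z hz => ?_⟩
    obtain ⟨i, rfl⟩ := ha v' hv'.1 z hz
    rw [hX1c v' hv'.1, ← h5]
    have h1 : |f w' (a v' i) - f w' (a w' i)| < δ := hmem' i
    have h3 := hcl w' hw' v' hv' i
    calc |f w' (a v' i) - f v' (a v' i)|
        = |(f w' (a v' i) - f w' (a w' i)) + (f w' (a w' i) - f v' (a v' i))| := by congr 1; ring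
      _ ≤ |f w' (a v' i) - f w' (a w' i)| + |f w' (a w' i) - f v' (a v' i)| := abs_add_le _ _
      _ < 2 * δ := by linarith

theorem hs (hx : Scale x) : HD (#W) (Sq x) := by
  classical
  intro S hS
  by_contra hcon
  push Not at hcon
  have hcon' : ∀ C ⊆ S, Sm W C → ∃ f ∈ S, f ∉ closure C := by
    intro C hC hC2
    have := hcon C hC hC2
    rw [Set.not_subset] at this
    exact this
  obtain ⟨f, hf⟩ := wfrec (W := W) (Y := Sq x → ℝ)
    (fun w g f => g '' (Set.Iio w) ⊆ S → f ∈ S ∧ f ∉ closure (g '' (Set.Iio w)))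
    (by
      intro w g g' y hgg h hg'
      have : g '' (Set.Iio w) = g' '' (Set.Iio w) := Set.image_congr (fun v hv => hgg v hv)
      rw [← this] at hg' ⊢
      exact h hg')
    (by
      intro w g
      by_cases h : g '' (Set.Iio w) ⊆ S
      · obtain ⟨f, hf⟩ := hcon' _ h (Sm.image (W := W) (BigOrd.sIio w) g)
        exact ⟨f, fun _ => hf⟩
      · exact ⟨fun _ => 0, fun h' => (h h').elim⟩)
  have hfS : ∀ w, f w ∈ S := by
    intro w
    induction w using WellFoundedLT.induction with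
    | ind w ih =>
      refine (hf w ?_).1
      rintro _ ⟨v, hv, rfl⟩
      exact ih v hv
  have hfc : ∀ w, f w ∉ closure (f '' (Set.Iio w)) := by
    intro w
    refine (hf w ?_).2
    rintro _ ⟨v, _, rfl⟩
    exact hfS v
  have hI : ∀ w : W, ∃ I : Finset (Sq x), ∃ q : ℕ, ∀ g ∈ f '' (Set.Iio w), ∃ z ∈ I,
      1 / ((q : ℝ) + 1) ≤ |g z - f w z| := fun w => nbhd_of_notMem_closure (hfc w)
  choose I q hIq using hI
  obtain ⟨⟨v, w, hvw, h⟩, -⟩ := close hx f (fun w => hS _ (hfS w)) I q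
  obtain ⟨z, hz, hz2⟩ := hIq w (f v) ⟨v, hvw, rfl⟩
  exact absurd (h z hz) (not_lt.2 hz2)

theorem hli (hx : Scale x) : HL (#W) (Sq x) := by
  classical
  intro S hS 𝒰 hO hcov
  by_contra hcon
  push Not at hcon
  have hcon' : ∀ C ⊆ 𝒰, Sm W C → ∃ f ∈ S, f ∉ ⋃₀ C := by
    intro C hC hC2
    have := hcon C hC hC2
    rw [Set.not_subset] at this
    exact this
  obtain ⟨F, hF⟩ := wfrec (W := W) (Y := (Sq x → ℝ) × Set (Sq x → ℝ))
    (fun w G p => (fun v => (G v).2) '' (Set.Iio w) ⊆ 𝒰 →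
      p.1 ∈ S ∧ p.2 ∈ 𝒰 ∧ p.1 ∈ p.2 ∧ p.1 ∉ ⋃₀ ((fun v => (G v).2) '' (Set.Iio w)))
    (by
      intro w g g' y hgg h hg'
      have : (fun v => (g v).2) '' (Set.Iio w) = (fun v => (g' v).2) '' (Set.Iio w) :=
        Set.image_congr (fun v hv => by rw [hgg v hv])
      rw [← this] at hg' ⊢
      exact h hg')
    (by
      intro w g
      by_cases h : (fun v => (g v).2) '' (Set.Iio w) ⊆ 𝒰
      · obtain ⟨f, hf, hf2⟩ := hcon' _ h (Sm.image (W := W) (BigOrd.sIio w) _)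
        obtain ⟨O, hO1, hO2⟩ := hcov hf
        exact ⟨(f, O), fun _ => ⟨hf, hO1, hO2, hf2⟩⟩
      · exact ⟨(fun _ => 0, ∅), fun h' => (h h').elim⟩)
  have hall : ∀ w, (F w).1 ∈ S ∧ (F w).2 ∈ 𝒰 ∧ (F w).1 ∈ (F w).2 ∧
      (F w).1 ∉ ⋃₀ ((fun v => (F v).2) '' (Set.Iio w)) := by
    intro w
    induction w using WellFoundedLT.induction with
    | ind w ih =>
      refine hF w ?_
      rintro _ ⟨v, hv, rfl⟩
      exact (ih v hv).2.1
  have hI : ∀ w : W, ∃ I : Finset (Sq x), ∃ q : ℕ, ∀ g ∈ ((F w).2)ᶜ, ∃ z ∈ I,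
      1 / ((q : ℝ) + 1) ≤ |g z - (F w).1 z| := by
    intro w
    apply nbhd_of_notMem_closure
    rw [(hO _ (hall w).2.1).isClosed_compl.closure_eq]
    exact fun h => h (hall w).2.2.1
  choose I q hIq using hI
  obtain ⟨-, ⟨v, w, hvw, h⟩⟩ := close hx (fun w => (F w).1) (fun w => hS _ (hall w).1) I q
  obtain ⟨z, hz, hz2⟩ := hIq v (F w).1 (fun hm => (hall w).2.2.2 ⟨_, ⟨v, hvw, rfl⟩, hm⟩)
  exact absurd (h z hz) (not_lt.2 hz2)

/-- The functions `φ_α`. -/
noncomputable def yf (x : W → ℕ → ℕ) (α : W) : Sq x → ℝ :=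
  fun p => if ph x α p = true then 1 else 0

theorem yf_cont (x : W → ℕ → ℕ) (α : W) : Continuous (yf x α) := by
  have h1 : Continuous (Ph x) := continuous_induced_dom
  have h2 : Continuous (fun p : Sq x => (Ph x p).1 α) :=
    (continuous_apply α).comp (continuous_fst.comp h1)
  have h3 : Continuous (fun b : Bool => if b = true then (1 : ℝ) else 0) :=
    continuous_of_discreteTopology
  exact h3.comp h2

theorem yf_evtl (hx : Scale x) (v : ℕ → Sq x → ℝ) (hv : ∀ n, v n ∈ Set.range (yf x)) (b : W)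
    (hT : Tendsto v atTop (𝓝 (yf x b))) : ∀ᶠ n in atTop, v n = yf x b := by
  classical
  by_contra hcon
  rw [Filter.not_eventually] at hcon
  obtain ⟨φ, hφ, hφ2⟩ := Filter.extraction_of_frequently_atTop hcon
  choose α hα using fun k => hv (φ k)
  have hT2 : Tendsto (fun k => yf x (α k)) atTop (𝓝 (yf x b)) := by
    have h1 := hT.comp hφ.tendsto_atTop
    refine h1.congr (fun k => (hα k).symm)
  have hne : ∀ k, α k ≠ b := by
    intro k hk
    apply hφ2 k
    rw [← hα k, hk]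
  have key : ∀ (ξ : W) (m : ℕ), ∀ᶠ k in atTop, m ≤ dl (x (α k)) (x b) ∧
      x ξ (dl (x (α k)) (x b)) < x (α k) (dl (x (α k)) (x b)) := by
    intro ξ m
    have h1 : Tendsto (fun k => yf x (α k) (b, ξ, m)) atTop (𝓝 (yf x b (b, ξ, m))) :=
      (tendsto_pi_nhds.1 hT2) (b, ξ, m)
    have h0 : ph x b (b, ξ, m) = true := ph_true.2 (Or.inl rfl)
    have h2 : yf x b (b, ξ, m) = 1 := by
      unfold yf
      rw [if_pos h0]
    rw [h2] at h1
    have h3 : ∀ᶠ k in atTop, (1 / 2 : ℝ) < yf x (α k) (b, ξ, m) :=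
      h1.eventually (lt_mem_nhds (by norm_num))
    filter_upwards [h3] with k hk
    have h4 : ph x (α k) (b, ξ, m) = true := by
      by_contra hno
      unfold yf at hk
      rw [if_neg hno] at hk
      norm_num at hk
    rcases ph_true.1 h4 with h5 | h5
    · exact (hne k h5).elim
    · exact h5
  obtain ⟨ψ, hψ, hψ2⟩ := Filter.extraction_forall_of_eventually
    (P := fun m k => m ≤ dl (x (α k)) (x b)) (fun m => (key b m).mono (fun k hk => hk.1))
  obtain ⟨ξ, hξ⟩ := hx.unb (fun m => x (α (ψ m)) (dl (x (α (ψ m))) (x b)))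
  apply hξ
  filter_upwards [hψ.tendsto_atTop.eventually (key ξ 0)] with m hm
  exact ((hx.mono ξ).monotone (hψ2 m)).trans hm.2.le

theorem yf_inj (hx : Scale x) : Function.Injective (yf x) := by
  intro α b h
  by_contra hne
  have h1 : yf x α (b, b, dl (x α) (x b) + 1) = yf x b (b, b, dl (x α) (x b) + 1) := by rw [h]
  have h0 : ph x b (b, b, dl (x α) (x b) + 1) = true := ph_true.2 (Or.inl rfl)
  have h2 : yf x b (b, b, dl (x α) (x b) + 1) = 1 := by
    unfold yf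
    rw [if_pos h0]
  rw [h2] at h1
  have h4 : ph x α (b, b, dl (x α) (x b) + 1) = true := by
    by_contra hno
    unfold yf at h1
    rw [if_neg hno] at h1
    norm_num at h1
  rcases ph_true.1 h4 with h5 | h5
  · exact hne h5
  · have h6 : dl (x α) (x b) + 1 ≤ dl (x α) (x b) := h5.1
    omega

theorem yf_card (hx : Scale x) : #(Set.range (yf x)) = #W := Cardinal.mk_range_eq _ (yf_inj hx)

theorem sq_card (x : W → ℕ → ℕ) : #(Sq x) = #W := by
  have h1 : #(Sq x) = #(W × W × ℕ) := rfl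
  have h2 : ℵ₀ ≤ #W := (BigOrd.unc (W := W)).le
  rw [h1]
  simp only [Cardinal.mk_prod, Cardinal.lift_id, Cardinal.mk_nat]
  rw [Cardinal.mul_aleph0_eq h2, Cardinal.mul_eq_self h2]

end

theorem exists_scale_WB : ∃ x : WB → ℕ → ℕ, Scale x := by
  refine exists_scale exists_unb_WB (fun w G => ?_)
  obtain ⟨f, hf⟩ := bounded_of_lt (mk_Iio_WB w) (fun v => G v)
  exact ⟨f, fun v hv => hf ⟨v, hv⟩⟩

/-- The theorem in ZFC. -/
theorem main : ∃ (X : Type) (_ : TopologicalSpace X), T35Space X ∧ #X = bb ∧ HD bb X ∧ HL bb X ∧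
    ∃ S : Set (X → ℝ), (∀ f ∈ S, Continuous f) ∧ #S = bb ∧
      (∀ (u : ℕ → X → ℝ) (g : X → ℝ), (∀ n, u n ∈ S) → g ∈ S → Tendsto u atTop (𝓝 g) →
        ∀ᶠ n in atTop, u n = g) ∧ ¬ SeqD bb S := by
  obtain ⟨x, hx⟩ := exists_scale_WB
  have hev : ∀ (u : ℕ → Sq x → ℝ) (g : Sq x → ℝ), (∀ n, u n ∈ Set.range (yf x)) →
      g ∈ Set.range (yf x) → Tendsto u atTop (𝓝 g) → ∀ᶠ n in atTop, u n = g := by
    rintro u _ hu ⟨b, rfl⟩ hT
    exact yf_evtl hx u hu b hT
  have h1 := hs hx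
  have h2 := hli hx
  rw [mk_WB] at h1 h2
  refine ⟨Sq x, inferInstance, sq_t35 hx.inj, (sq_card x).trans mk_WB, h1, h2,
    Set.range (yf x), ?_, (yf_card hx).trans mk_WB, hev, ?_⟩
  · rintro _ ⟨a, rfl⟩
    exact yf_cont x a
  · rintro ⟨C, hCS, hCc, hC⟩
    have hsub : Set.range (yf x) ⊆ C := by
      intro f hf
      obtain ⟨u, hu, hT⟩ := hC f hf
      obtain ⟨n, hn⟩ := (hev u f (fun n => hCS (hu n)) hf hT).exists
      rw [← hn]
      exact hu n
    have h3 := (Cardinal.mk_le_mk_of_subset hsub).trans_lt hCc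
    rw [yf_card hx, mk_WB] at h3
    exact lt_irrefl _ h3

theorem countable_iff {α : Type} (D : Set α) : #D < Cardinal.aleph 1 ↔ D.Countable := by
  rw [← Cardinal.le_aleph0_iff_set_countable, ← Cardinal.succ_aleph0, Order.lt_succ_iff]

/-- Q1 fails if `𝔟 = ℵ₁`. -/
theorem q1_fails (h : bb = Cardinal.aleph 1) :
    ¬ (∀ (X : Type) [TopologicalSpace X] [T35Space X],
      (∀ S : Set (X → ℝ), (∀ f ∈ S, Continuous f) →
        ∃ D ⊆ S, D.Countable ∧ S ⊆ closure D) →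
      ∀ S : Set (X → ℝ), (∀ f ∈ S, Continuous f) →
        ∃ D ⊆ S, D.Countable ∧
          ∀ f ∈ S, ∃ u : ℕ → X → ℝ, (∀ n, u n ∈ D) ∧
            Filter.Tendsto u Filter.atTop (nhds f)) := by
  intro hq
  obtain ⟨X, _, hX, -, hd, -, S, hS, -, -, hns⟩ := main
  rw [h] at hd hns
  apply hns
  obtain ⟨D, hD1, hD2, hD3⟩ := hq X (fun S hS => by
    obtain ⟨D, hD1, hD2, hD3⟩ := hd S hS
    exact ⟨D, hD1, (countable_iff D).1 hD2, hD3⟩) S hS
  exact ⟨D, hD1, (countable_iff D).2 hD2, hD3⟩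

end Pool.Agent.H62.CB
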