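import Pool.Agent.H62.CB.Big

/-!
An unbounded well ordered sequence of increasing functions of type `𝔟`, and the oscillation lemma.
-/

set_option autoImplicit false

namespace Pool.Agent.H62.CB

open Set Filter Cardinal

section
variable {W : Type} [LinearOrder W] [BigOrd W]

/-- An unbounded well ordered sequence of increasing functions. -/
structure Scale (x : W → ℕ → ℕ) : Prop where
  mono : ∀ w, StrictMono (x w)
  lt : ∀ v w, v < w → ∀ᶠ n in atTop, x v n < x w n
  unb : ∀ f : ℕ → ℕ, ∃ w, ¬ ∀ᶠ n in atTop, x w n ≤ f n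

theorem exists_scale (h : ∃ g : W → ℕ → ℕ, Unb g)
    (hb : ∀ w : W, ∀ G : W → ℕ → ℕ, ∃ f : ℕ → ℕ, ∀ v, v < w → ∀ᶠ n in atTop, G v n ≤ f n) :
    ∃ x : W → ℕ → ℕ, Scale x := by
  obtain ⟨g, hg⟩ := h
  obtain ⟨x, hx⟩ := wfrec (W := W) (Y := ℕ → ℕ)
    (fun w G y => StrictMono y ∧ (∀ v, v < w → ∀ᶠ n in atTop, G v n < y n) ∧ ∀ n, g w n ≤ y n)
    (by
      rintro w G G' y hGG ⟨h1, h2, h3⟩
      refine ⟨h1, fun v hv => ?_, h3⟩
      rw [← hGG v hv]
      exact h2 v hv)
    (by
      intro w G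
      obtain ⟨f, hf⟩ := hb w G
      refine ⟨fun n => ∑ j ∈ Finset.range (n + 1), (1 + g w j + f j), ?_, ?_, ?_⟩
      · apply strictMono_nat_of_lt_succ
        intro n
        rw [Finset.sum_range_succ _ (n + 1)]
        omega
      · intro v hv
        filter_upwards [hf v hv] with n hn
        rw [Finset.sum_range_succ]
        omega
      · intro n
        beta_reduce
        rw [Finset.sum_range_succ]
        omega)
  refine ⟨x, fun w => (hx w).1, fun v w hvw => (hx w).2.1 v hvw, fun f => ?_⟩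
  obtain ⟨w, hw⟩ := hg f
  refine ⟨w, fun h => hw ?_⟩
  filter_upwards [h] with n hn
  exact ((hx w).2.2 n).trans hn

variable {x : W → ℕ → ℕ}

theorem Scale.inj (hx : Scale x) : Function.Injective x := by
  intro v w h
  by_contra hne
  rcases lt_or_gt_of_ne hne with hlt | hlt
  · obtain ⟨n, hn⟩ := (hx.lt v w hlt).exists
    rw [h] at hn
    exact lt_irrefl _ hn
  · obtain ⟨n, hn⟩ := (hx.lt w v hlt).exists
    rw [h] at hn
    exact lt_irrefl _ hn

theorem exists_above {α : Type} {A : Set α} (hA : ¬ Sm W A) (b : α → W)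
    (hb : ∀ v, Sm W {ν | ν ∈ A ∧ b ν = v}) (v : W) : ∃ ν ∈ A, v < b ν := by
  by_contra h
  push Not at h
  apply hA
  have : A ⊆ ⋃ u ∈ Set.Iic v, {ν | ν ∈ A ∧ b ν = u} := by
    intro ν hν
    rw [Set.mem_iUnion₂]
    exact ⟨b ν, h ν hν, hν, rfl⟩
  exact (sm_biUnion (sIic v) (fun u _ => hb u)).mono this

theorem not_bounded (hx : Scale x) {α : Type} {A : Set α} (hA : ¬ Sm W A) (b : α → W)
    (hb : ∀ v, Sm W {ν | ν ∈ A ∧ b ν = v}) (h : ℕ → ℕ) :
    ∃ ν ∈ A, ∃ n, h n < x (b ν) n := by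
  by_contra hcon
  push Not at hcon
  obtain ⟨w, hw⟩ := hx.unb h
  obtain ⟨ν, hν, hwν⟩ := exists_above hA b hb w
  apply hw
  filter_upwards [hx.lt _ _ hwν] with n hn
  exact hn.le.trans (hcon ν hν n)

/-- long gaps -/
theorem gap (hx : Scale x) {α : Type} {A : Set α} (hA : ¬ Sm W A) (b : α → W)
    (hb : ∀ v, Sm W {ν | ν ∈ A ∧ b ν = v}) (G : ℕ → ℕ) (a0 : ℕ) :
    ∃ ν ∈ A, ∃ a, a0 ≤ a ∧ ∀ m, a < m → m ≤ G a → m ∉ Set.range (x (b ν)) := by
  by_contra hcon
  push Not at hcon
  obtain ⟨c, hc⟩ := pig hA (fun ν => x (b ν) a0)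
  let G' : ℕ → ℕ := fun a => ∑ j ∈ Finset.range (a + 1), G j
  have hG'm : Monotone G' := by
    apply monotone_nat_of_le_succ
    intro n
    simp only [G']
    rw [Finset.sum_range_succ _ (n + 1)]
    omega
  have hG'G : ∀ a, G a ≤ G' a := by
    intro a
    simp only [G']
    rw [Finset.sum_range_succ]
    omega
  obtain ⟨ν, ⟨hν, hνc⟩, n, hn⟩ := not_bounded hx hc b
    (fun v => (hb v).mono (by rintro ν ⟨h1, h2⟩; exact ⟨h1.1, h2⟩)) (fun l => G'^[l] c)
  have hm := hx.mono (b ν)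
  have key : ∀ l, x (b ν) (a0 + l) ≤ G'^[l] c := by
    intro l
    induction l with
    | zero => simpa using hνc.le
    | succ l ih =>
      have h1 : a0 ≤ x (b ν) (a0 + l) := (Nat.le_add_right _ _).trans (hm.id_le _)
      obtain ⟨m, hm1, hm2, j, hj⟩ := hcon ν hν _ h1
      rw [← hj] at hm1 hm2
      have h2 : a0 + l < j := hm.lt_iff_lt.1 hm1
      rw [Function.iterate_succ_apply']
      calc x (b ν) (a0 + (l + 1)) ≤ x (b ν) j := hm.monotone (by omega)
        _ ≤ G (x (b ν) (a0 + l)) := hm2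
        _ ≤ G' (x (b ν) (a0 + l)) := hG'G _
        _ ≤ G' (G'^[l] c) := hG'm ih
  have h3 : x (b ν) n ≤ x (b ν) (a0 + n) := hm.monotone (by omega)
  exact absurd hn (not_lt.2 (h3.trans (key n)))

/-- The oscillation lemma. -/
theorem osc (hx : Scale x) {α : Type} {A : Set α} (hA : ¬ Sm W A) {I : Type} [Fintype I]
    (b : α → I → W) (i0 : I) (hb : ∀ v, Sm W {ν | ν ∈ A ∧ b ν i0 = v})
    (hmin : ∀ ν ∈ A, ∀ i, b ν i0 ≤ b ν i) :
    ∃ s : I → Finset ℕ, ∀ N : ℕ, ∃ ν ∈ A, ∀ i, ∀ m, m < N →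
      (m ∈ s i ↔ m ∈ Set.range (x (b ν i))) := by
  classical
  by_contra hcon
  push Not at hcon
  have hm0 : ∀ ν, ∃ m0 : ℕ, ν ∈ A → ∀ i, ∀ n, m0 ≤ n → x (b ν i0) n ≤ x (b ν i) n := by
    intro ν
    by_cases hν : ν ∈ A
    · have h1 : ∀ᶠ n in atTop, ∀ i, x (b ν i0) n ≤ x (b ν i) n := by
        rw [eventually_all]
        intro i
        rcases (hmin ν hν i).eq_or_lt with h | h
        · rw [h]
          exact Eventually.of_forall (fun _ => le_rfl)
        · filter_upwards [hx.lt _ _ h] with n hn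
          exact hn.le
      obtain ⟨m0, hm0⟩ := eventually_atTop.1 h1
      exact ⟨m0, fun _ i n hn => hm0 n hn i⟩
    · exact ⟨0, fun h => (hν h).elim⟩
  choose m0 hm0 using hm0
  obtain ⟨M, hM⟩ := pig hA m0
  obtain ⟨c, hc⟩ := pig hM (fun ν => x (b ν i0) M)
  choose N hN using hcon
  let f : ℕ → ℕ := fun c => c + 1 +
    ∑ s ∈ Fintype.piFinset (fun _ : I => (Finset.range (c + 1)).powerset), N s
  have hf1 : ∀ c, c < f c := fun c => by simp only [f]; omega
  have hf2 : ∀ (c : ℕ) (s : I → Finset ℕ), (∀ i, s i ⊆ Finset.range (c + 1)) → N s < f c := by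
    intro c s hs
    have h1 : N s ≤ ∑ s ∈ Fintype.piFinset (fun _ : I => (Finset.range (c + 1)).powerset), N s :=
      Finset.single_le_sum (fun _ _ => Nat.zero_le _)
        (Fintype.mem_piFinset.2 (fun i => Finset.mem_powerset.2 (hs i)))
    simp only [f]
    omega
  let k : ℕ → ℕ := fun a => Fintype.card I * (a + 1) + 1
  have hfm : ∀ a, StrictMono (fun j => f^[j] a) := by
    intro a
    apply strictMono_nat_of_lt_succ
    intro j
    show f^[j] a < f^[j + 1] a
    rw [Function.iterate_succ_apply']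
    exact hf1 _
  obtain ⟨ν, ⟨⟨hνA, hνM⟩, hνc⟩, a, ha0, ha⟩ := gap hx hc (fun ν => b ν i0)
    (fun v => (hb v).mono (by rintro ν ⟨h1, h2⟩; exact ⟨h1.1.1, h2⟩)) (fun a => f^[k a] a) c
  have hm := hx.mono (b ν i0)
  -- values of the other functions beyond the level of the gap
  have hlate : ∀ i l, a < l → f^[k a] a < x (b ν i) l := by
    intro i l hl
    have h1 : a < x (b ν i0) l := hl.trans_le (hm.id_le l)
    have h2 : f^[k a] a < x (b ν i0) l := by
      by_contra h
      exact ha _ h1 (not_lt.1 h) ⟨l, rfl⟩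
    have h3 : M ≤ l := by
      by_contra h
      push Not at h
      have h4 : x (b ν i0) l < x (b ν i0) M := hm h
      omega
    have h5 := hm0 ν hνA i l (by rw [hνM]; exact h3)
    exact h2.trans_le h5
  have hval : ∀ j : Fin (k a), ∃ p : I × Fin (a + 1),
      f^[j] a < x (b ν p.1) p.2 ∧ x (b ν p.1) p.2 < f^[j.1 + 1] a := by
    intro j
    let s : I → Finset ℕ := fun i =>
      (Finset.range (f^[j] a + 1)).filter (fun m => m ∈ Set.range (x (b ν i)))
    obtain ⟨i, m, hm1, hm2⟩ := hN s ν hνA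
    have hlt : N s < f (f^[j] a) := hf2 _ s (fun i => Finset.filter_subset _ _)
    have hms : m ∈ s i ↔ m < f^[j] a + 1 ∧ m ∈ Set.range (x (b ν i)) := by
      simp only [s, Finset.mem_filter, Finset.mem_range]
    have hmgt : f^[j] a < m ∧ m ∈ Set.range (x (b ν i)) := by
      rcases hm2 with ⟨h1, h2⟩ | ⟨h1, h2⟩
      · exact absurd (hms.1 h1).2 h2
      · refine ⟨?_, h2⟩
        by_contra h
        exact h1 (hms.2 ⟨by omega, h2⟩)
    obtain ⟨h1, l, rfl⟩ := hmgt
    have h2 : x (b ν i) l < f^[j.1 + 1] a := by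
      rw [Function.iterate_succ_apply']
      exact hm1.trans hlt
    have h3 : l < a + 1 := by
      by_contra h
      have h4 := hlate i l (by omega)
      have h5 : f^[j.1 + 1] a ≤ f^[k a] a := (hfm a).monotone (by have := j.2; omega)
      omega
    exact ⟨(i, ⟨l, h3⟩), h1, h2⟩
  choose p hp1 hp2 using hval
  have hinj : Function.Injective p := by
    intro j j' h
    by_contra hne
    rcases lt_or_gt_of_ne hne with hlt | hlt
    · have h1 := hp2 j
      have h2 := hp1 j'
      rw [h] at h1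
      have h3 : f^[j.1 + 1] a ≤ f^[j'.1] a := (hfm a).monotone (by
        have : j.1 < j'.1 := hlt
        omega)
      omega
    · have h1 := hp2 j'
      have h2 := hp1 j
      rw [h] at h2
      have h3 : f^[j'.1 + 1] a ≤ f^[j.1] a := (hfm a).monotone (by
        have : j'.1 < j.1 := hlt
        omega)
      omega
  have hcard := Fintype.card_le_of_injective p hinj
  rw [Fintype.card_fin, Fintype.card_prod, Fintype.card_fin] at hcard
  simp only [k] at hcard
  omega

end

end Pool.Agent.H62.CB
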