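import Pool.Agent.H62.CB.Seq

/-!
The space `X = W × W × ℕ` with the topology generated by the sets `ph x α` and a metric part, and
the combinatorial form of hereditary covering and density properties of its powers.
-/

set_option autoImplicit false

namespace Pool.Agent.H62.CB

open Set Filter Cardinal

/-- the first place where two functions differ -/
noncomputable def dl (f g : ℕ → ℕ) : ℕ := sInf {n | f n ≠ g n}

theorem dl_spec {f g : ℕ → ℕ} (h : f ≠ g) : f (dl f g) ≠ g (dl f g) := by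
  have hne : {n | f n ≠ g n}.Nonempty := Function.ne_iff.1 h
  exact Nat.sInf_mem hne

theorem dl_lt {f g : ℕ → ℕ} {n : ℕ} (h : n < dl f g) : f n = g n := by
  by_contra hne
  exact Nat.notMem_of_lt_sInf h hne

theorem dl_eq {f g : ℕ → ℕ} {n : ℕ} (h1 : f n ≠ g n) (h2 : ∀ m, m < n → f m = g m) :
    dl f g = n := by
  apply le_antisymm
  · exact Nat.sInf_le h1
  · by_contra h
    push Not at h
    exact dl_spec (fun h' => h1 (congrFun h' n)) (h2 _ h)

section
variable {W : Type}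

/-- the function `φ_α` on the points `(b, ξ, k)` -/
noncomputable def ph (x : W → ℕ → ℕ) (α : W) (p : W × W × ℕ) : Bool :=
  open scoped Classical in
  decide (α = p.1 ∨ (p.2.2 ≤ dl (x α) (x p.1) ∧
    x p.2.1 (dl (x α) (x p.1)) < x α (dl (x α) (x p.1))))

theorem ph_true {x : W → ℕ → ℕ} {α : W} {p : W × W × ℕ} : ph x α p = true ↔
    (α = p.1 ∨ (p.2.2 ≤ dl (x α) (x p.1) ∧
      x p.2.1 (dl (x α) (x p.1)) < x α (dl (x α) (x p.1)))) := by
  classical
  unfold ph
  constructor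
  · intro h
    exact of_decide_eq_true h
  · intro h
    exact decide_eq_true h

/-- basic neighbourhoods -/
def Nb (x : W → ℕ → ℕ) (T : Finset W) (L : ℕ) (p p' : W × W × ℕ) : Prop :=
  (∀ q ∈ T, ph x q p' = ph x q p) ∧ (∀ l, l < L → x p'.1 l = x p.1 l) ∧
    (∀ l, l < L → x p'.2.1 l = x p.2.1 l) ∧ p'.2.2 = p.2.2

theorem ph_far {x : W → ℕ → ℕ} {K : ℕ} {q : W} {p p' : W × W × ℕ} (hq : q ≠ p.1)
    (hx : Function.Injective x)
    (hd : dl (x q) (x p.1) < K) (h1 : ∀ l, l < K → x p'.1 l = x p.1 l)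
    (h2 : ∀ l, l < K → x p'.2.1 l = x p.2.1 l) (h3 : p'.2.2 = p.2.2) :
    ph x q p' = ph x q p := by
  have hne : x q ≠ x p.1 := fun h => hq (hx h)
  have h4 : x q (dl (x q) (x p.1)) ≠ x p'.1 (dl (x q) (x p.1)) := by
    rw [h1 _ hd]
    exact dl_spec hne
  have h5 : dl (x q) (x p'.1) = dl (x q) (x p.1) := by
    apply dl_eq h4
    intro m hm
    rw [h1 m (hm.trans hd)]
    exact dl_lt hm
  have hq' : q ≠ p'.1 := by
    rintro rfl
    exact h4 rfl
  rw [Bool.eq_iff_iff, ph_true, ph_true, h5, h3, h2 _ hd]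
  simp only [hq, hq', false_or]

/-- stems -/
theorem stem {X : ℕ → ℕ} (hX : StrictMono X) {s : Finset ℕ} {N : ℕ} (hs : ∀ m ∈ s, m < N)
    (h : ∀ m, m < N → (m ∈ s ↔ m ∈ Set.range X)) :
    (∀ l (hl : l < s.card), X l = s.orderEmbOfFin rfl ⟨l, hl⟩) ∧ N ≤ X s.card := by
  classical
  have hex : ∃ l, N ≤ X l := ⟨N, hX.id_le N⟩
  obtain ⟨p, hp⟩ : ∃ p, p = Nat.find hex := ⟨_, rfl⟩
  have hp1 : N ≤ X p := by rw [hp]; exact Nat.find_spec hex
  have hp2 : ∀ l, l < p → X l < N := by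
    intro l hl
    rw [hp] at hl
    exact not_le.1 (Nat.find_min hex hl)
  have himg : s = (Finset.range p).image X := by
    ext m
    rw [Finset.mem_image]
    constructor
    · intro hm
      obtain ⟨l, hl⟩ := (h m (hs m hm)).1 hm
      refine ⟨l, ?_, hl⟩
      rw [Finset.mem_range]
      by_contra hlp
      have h1 : X p ≤ X l := hX.monotone (not_lt.1 hlp)
      have h2 := hs m hm
      omega
    · rintro ⟨l, hl, rfl⟩
      rw [Finset.mem_range] at hl
      exact (h _ (hp2 l hl)).2 ⟨l, rfl⟩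
  have hcard : s.card = p := by
    rw [himg, Finset.card_image_of_injective _ hX.injective, Finset.card_range]
  constructor
  · have h3 := Finset.orderEmbOfFin_unique (s := s) rfl (f := fun l : Fin s.card => X l)
      (fun l => (h _ (hp2 l (by rw [← hcard]; exact l.2))).2 ⟨l, rfl⟩)
      (fun l l' hl => hX hl)
    intro l hl
    exact congrFun h3 ⟨l, hl⟩
  · rw [hcard]
    exact hp1

theorem stem_eq {X X' : ℕ → ℕ} (hX : StrictMono X) (hX' : StrictMono X') {s : Finset ℕ} {N N' : ℕ}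
    (hs : ∀ m ∈ s, m < N) (hs' : ∀ m ∈ s, m < N')
    (h : ∀ m, m < N → (m ∈ s ↔ m ∈ Set.range X))
    (h' : ∀ m, m < N' → (m ∈ s ↔ m ∈ Set.range X')) (hN : X' s.card < N) :
    dl X X' = s.card ∧ N ≤ X s.card := by
  obtain ⟨h1, h2⟩ := stem hX hs h
  obtain ⟨h3, -⟩ := stem hX' hs' h'
  refine ⟨dl_eq (by omega) (fun m hm => ?_), h2⟩
  rw [h1 m hm, h3 m hm]

end

section
variable {W : Type} [LinearOrder W] [BigOrd W] {x : W → ℕ → ℕ}

theorem two_of_big {A : Set W} (hA : ¬ Sm W A) : ∃ v ∈ A, ∃ w ∈ A, v < w := by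
  have hne : A.Nonempty := by
    rw [Set.nonempty_iff_ne_empty]
    rintro rfl
    exact hA (sm_countable Set.countable_empty)
  obtain ⟨v, hv⟩ := hne
  obtain ⟨w, hw, hvw⟩ := exists_gt hA v
  exact ⟨v, hv, w, hw, hvw⟩

/-- No right separated and no left separated sequences of type `W` in the finite powers
(combinatorial form). -/
theorem hlhs (hx : Scale x) (n : ℕ) (X : Set W) (hX : ¬ Sm W X)
    (a : W → Fin n → W × W × ℕ) (U : W → Set (Fin n → W × W × ℕ))
    (hU : ∀ w ∈ X, ∃ T : Finset W, ∃ L : ℕ, ∀ c : Fin n → W × W × ℕ,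
      (∀ i, Nb x T L (a w i) (c i)) → c ∈ U w) :
    (∃ v ∈ X, ∃ w ∈ X, v < w ∧ a w ∈ U v) ∧ (∃ v ∈ X, ∃ w ∈ X, v < w ∧ a v ∈ U w) := by
  classical
  have hU' : ∀ w, ∃ T : Finset W, ∃ L : ℕ, w ∈ X → ∀ c : Fin n → W × W × ℕ,
      (∀ i, Nb x T L (a w i) (c i)) → c ∈ U w := by
    intro w
    by_cases hw : w ∈ X
    · obtain ⟨T, L, h⟩ := hU w hw
      exact ⟨T, L, fun _ => h⟩
    · exact ⟨∅, 0, fun h => (hw h).elim⟩
  choose T L hTL using hU'
  let K : W → ℕ := fun w => L w + ∑ i : Fin n, ((a w i).2.2 +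
    ∑ q ∈ T w, (dl (x q) (x (a w i).1) + 1))
  have hK1 : ∀ w, L w ≤ K w := fun w => Nat.le_add_right _ _
  have hK2 : ∀ w i, (a w i).2.2 ≤ K w := by
    intro w i
    have h1 : (a w i).2.2 + ∑ q ∈ T w, (dl (x q) (x (a w i).1) + 1) ≤
        ∑ i : Fin n, ((a w i).2.2 + ∑ q ∈ T w, (dl (x q) (x (a w i).1) + 1)) :=
      Finset.single_le_sum (f := fun i : Fin n => (a w i).2.2 +
        ∑ q ∈ T w, (dl (x q) (x (a w i).1) + 1)) (fun _ _ => Nat.zero_le _) (Finset.mem_univ i)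
    simp only [K]
    omega
  have hK3 : ∀ w i, ∀ q ∈ T w, dl (x q) (x (a w i).1) < K w := by
    intro w i q hq
    have h1 : (a w i).2.2 + ∑ q ∈ T w, (dl (x q) (x (a w i).1) + 1) ≤
        ∑ i : Fin n, ((a w i).2.2 + ∑ q ∈ T w, (dl (x q) (x (a w i).1) + 1)) :=
      Finset.single_le_sum (f := fun i : Fin n => (a w i).2.2 +
        ∑ q ∈ T w, (dl (x q) (x (a w i).1) + 1)) (fun _ _ => Nat.zero_le _) (Finset.mem_univ i)
    have h2 : dl (x q) (x (a w i).1) + 1 ≤ ∑ q ∈ T w, (dl (x q) (x (a w i).1) + 1) :=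
      Finset.single_le_sum (f := fun q => dl (x q) (x (a w i).1) + 1)
        (fun _ _ => Nat.zero_le _) hq
    simp only [K]
    omega
  -- pigeonholes
  obtain ⟨κ, hX1⟩ := pig hX K
  obtain ⟨e, hX2⟩ := pig hX1 (fun w => ((fun i => (a w i).2.2),
    (fun (i : Fin n) (l : Fin κ) => x (a w i).1 l),
    (fun (i : Fin n) (l : Fin κ) => x (a w i).2.1 l)))
  obtain ⟨X3, hX32, hX3, hdel⟩ := delta (Finset.univ : Finset (Fin n)) hX2 (fun w i => (a w i).1)
  have h3X : ∀ w ∈ X3, w ∈ X := fun w hw => (hX32 hw).1.1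
  have h3K : ∀ w ∈ X3, K w = κ := fun w hw => (hX32 hw).1.2
  have h3k : ∀ v ∈ X3, ∀ w ∈ X3, ∀ i, (a w i).2.2 = (a v i).2.2 := by
    intro v hv w hw i
    have h1 := (hX32 hv).2
    rw [← (hX32 hw).2] at h1
    exact (congrFun (congrArg Prod.fst h1) i).symm
  have h3a : ∀ v ∈ X3, ∀ w ∈ X3, ∀ i l, l < κ → x (a w i).1 l = x (a v i).1 l := by
    intro v hv w hw i l hl
    have h1 := (hX32 hv).2
    rw [← (hX32 hw).2] at h1
    exact (congrFun (congrFun (congrArg (fun p => p.2.1) h1) i) ⟨l, hl⟩).symm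
  have h3b : ∀ v ∈ X3, ∀ w ∈ X3, ∀ i l, l < κ → x (a w i).2.1 l = x (a v i).2.1 l := by
    intro v hv w hw i l hl
    have h1 := (hX32 hv).2
    rw [← (hX32 hw).2] at h1
    exact (congrFun (congrFun (congrArg (fun p => p.2.2) h1) i) ⟨l, hl⟩).symm
  -- it is enough to look at the coordinates `q = (a v i).1`
  have nb_of : ∀ v ∈ X3, ∀ w ∈ X3, (∀ i, ph x (a v i).1 (a w i) = true) → a w ∈ U v := by
    intro v hv w hw h
    refine hTL v (h3X v hv) _ (fun i => ?_)
    have hLκ : L v ≤ κ := by rw [← h3K v hv]; exact hK1 v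
    refine ⟨fun q hq => ?_, fun l hl => h3a v hv w hw i l (hl.trans_le hLκ),
      fun l hl => h3b v hv w hw i l (hl.trans_le hLκ), h3k v hv w hw i⟩
    by_cases hqa : q = (a v i).1
    · rw [hqa, h i]
      exact (ph_true.2 (Or.inl rfl)).symm
    · refine ph_far hqa hx.inj (K := κ) ?_ (h3a v hv w hw i) (h3b v hv w hw i) (h3k v hv w hw i)
      rw [← h3K v hv]
      exact hK3 v i q hq
  have suff : (∃ v ∈ X3, ∃ w ∈ X3, v < w ∧ ∀ i, ph x (a v i).1 (a w i) = true) ∧
      (∃ v ∈ X3, ∃ w ∈ X3, v < w ∧ ∀ i, ph x (a w i).1 (a v i) = true) := by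
    -- moving coordinates
    let mv : Fin n → Prop := fun i => ∀ v, Sm W {w | w ∈ X3 ∧ (a w i).1 = v}
    have hfix : ∀ i, ¬ mv i → ∀ v ∈ X3, ∀ w ∈ X3, (a v i).1 = (a w i).1 := by
      intro i hi v hv w hw
      rcases hdel i (Finset.mem_univ i) with ⟨u, hu⟩ | h
      · rw [hu v hv, hu w hw]
      · exact (hi h).elim
    let I : Type := {i : Fin n // mv i}
    by_cases hI : Nonempty I
    swap
    · have hno : ∀ i, ¬ mv i := fun i hi => hI ⟨⟨i, hi⟩⟩
      obtain ⟨v, hv, w, hw, hvw⟩ := two_of_big hX3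
      refine ⟨⟨v, hv, w, hw, hvw, fun i => ?_⟩, ⟨v, hv, w, hw, hvw, fun i => ?_⟩⟩
      · exact ph_true.2 (Or.inl (hfix i (hno i) v hv w hw))
      · exact ph_true.2 (Or.inl (hfix i (hno i) w hw v hv))
    have hminI : ∀ w, ∃ i0 : I, ∀ i : I, (a w i0.1).1 ≤ (a w i.1).1 := by
      intro w
      exact Finite.exists_min (fun i : I => (a w i.1).1)
    choose i0 hi0 using hminI
    obtain ⟨j0, hX4⟩ := pig hX3 i0
    -- classes of stems
    let E : (I → Finset ℕ) × ℕ → Set W := fun p => {w | (w ∈ X3 ∧ i0 w = j0) ∧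
      ∀ i : I, ∀ m, m < p.2 → (m ∈ p.1 i ↔ m ∈ Set.range (x (a w i.1).1))}
    let Bad : Set W := ⋃ p, if Sm W (E p) then E p else ∅
    have hBad : Sm W Bad := by
      apply sm_iUnion
      intro p
      by_cases hp : Sm W (E p)
      · rw [if_pos hp]; exact hp
      · rw [if_neg hp]; exact sm_countable Set.countable_empty
    let X5 : Set W := {w | w ∈ X3 ∧ i0 w = j0} \ Bad
    have hX5 : ¬ Sm W X5 := by
      intro h
      apply hX4
      refine (h.union hBad).mono ?_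
      intro w hw
      by_cases hb : w ∈ Bad
      · exact Or.inr hb
      · exact Or.inl ⟨hw, hb⟩
    have hE : ∀ w ∈ X5, ∀ p, w ∈ E p → ¬ Sm W (E p) := by
      intro w hw p hwp hp
      apply hw.2
      rw [Set.mem_iUnion]
      refine ⟨p, ?_⟩
      rw [if_pos hp]
      exact hwp
    obtain ⟨s, hs⟩ := osc hx hX5 (fun w (i : I) => (a w i.1).1) j0
      (fun v => (j0.2 v).mono (by
        rintro w ⟨h1, h2⟩
        exact ⟨h1.1.1, h2⟩))
      (by
        intro w hw i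
        have h1 := hi0 w i
        rw [hw.1.2] at h1
        exact h1)
    choose ν hν5 hν using hs
    have hνE : ∀ N, ν N ∈ E (s, N) := fun N => ⟨(hν5 N).1, hν N⟩
    obtain ⟨N0, hN0⟩ : ∃ N0 : ℕ, ∀ i, ∀ m ∈ s i, m < N0 := by
      refine ⟨(Finset.univ.sup (fun i => (s i).sup id)) + 1, fun i m hm => ?_⟩
      have h1 : m ≤ (s i).sup id := Finset.le_sup (f := id) hm
      have h2 : (s i).sup id ≤ Finset.univ.sup (fun i => (s i).sup id) :=
        Finset.le_sup (f := fun i => (s i).sup id) (Finset.mem_univ i)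
      omega
    -- the main computation
    have main : ∀ v w N, v ∈ E (s, N) → w ∈ E (s, N0) → N0 ≤ N →
        (∀ i : I, x (a w i.1).1 (s i).card < N) → (∀ i : I, x (a w i.1).2.1 (s i).card < N) →
        ∀ i, ph x (a v i).1 (a w i) = true := by
      intro v w N hv hw hN h1 h2 i
      by_cases hi : mv i
      swap
      · exact ph_true.2 (Or.inl (hfix i hi v hv.1.1 w hw.1.1))
      · obtain ⟨h3, h4⟩ := stem_eq (hx.mono (a v i).1) (hx.mono (a w i).1)
          (fun m hm => (hN0 ⟨i, hi⟩ m hm).trans_le hN) (hN0 ⟨i, hi⟩) (hv.2 ⟨i, hi⟩)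
          (hw.2 ⟨i, hi⟩) (h1 ⟨i, hi⟩)
        refine ph_true.2 (Or.inr ?_)
        rw [h3]
        refine ⟨?_, (h2 ⟨i, hi⟩).trans_le h4⟩
        have h5 : κ ≤ (s ⟨i, hi⟩).card := by
          by_contra h
          push Not at h
          have h6 := h3a w hw.1.1 v hv.1.1 i _ h
          have h7 := h1 ⟨i, hi⟩
          simp only at h7
          omega
        have h8 := hK2 w i
        rw [h3K w hw.1.1] at h8
        exact h8.trans h5
    have bound : ∀ w, ∃ N, N0 ≤ N ∧ (∀ i : I, x (a w i.1).1 (s i).card < N) ∧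
        (∀ i : I, x (a w i.1).2.1 (s i).card < N) := by
      intro w
      refine ⟨N0 + (Finset.univ.sup (fun i : I => x (a w i.1).1 (s i).card)) +
        (Finset.univ.sup (fun i : I => x (a w i.1).2.1 (s i).card)) + 1, by omega, ?_, ?_⟩
      · intro i
        have h1 : x (a w i.1).1 (s i).card ≤
            Finset.univ.sup (fun i : I => x (a w i.1).1 (s i).card) :=
          Finset.le_sup (f := fun i : I => x (a w i.1).1 (s i).card) (Finset.mem_univ i)
        omega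
      · intro i
        have h1 : x (a w i.1).2.1 (s i).card ≤
            Finset.univ.sup (fun i : I => x (a w i.1).2.1 (s i).card) :=
          Finset.le_sup (f := fun i : I => x (a w i.1).2.1 (s i).card) (Finset.mem_univ i)
        omega
    constructor
    · obtain ⟨g, hg⟩ := bdd (W := W) (sm_countable (Set.countable_range ν))
      obtain ⟨w, hw, hgw⟩ := exists_gt (hE _ (hν5 N0) _ (hνE N0)) g
      obtain ⟨N, hN, h1, h2⟩ := bound w
      exact ⟨ν N, (hνE N).1.1, w, hw.1.1, (hg _ ⟨N, rfl⟩).trans hgw,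
        main _ _ N (hνE N) hw hN h1 h2⟩
    · obtain ⟨N, hN, h1, h2⟩ := bound (ν N0)
      obtain ⟨w, hw, hvw⟩ := exists_gt (hE _ (hν5 N) _ (hνE N)) (ν N0)
      exact ⟨ν N0, (hνE N0).1.1, w, hw.1.1, hvw, main _ _ N hw (hνE N0) hN h1 h2⟩
  obtain ⟨⟨v, hv, w, hw, hvw, h1⟩, ⟨v', hv', w', hw', hvw', h2⟩⟩ := suff
  exact ⟨⟨v, h3X v hv, w, h3X w hw, hvw, nb_of v hv w hw h1⟩,
    ⟨v', h3X v' hv', w', h3X w' hw', hvw', nb_of w' hw' v' hv' h2⟩⟩

end

end Pool.Agent.H62.CB
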